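import Pool.Agent.Run7.h241.CS.Iface

/-!
# Piece RAT of project CS (helper241): blocks of six rational numbers, `k ^ 2` in a given interval
-/

set_option autoImplicit false

namespace Run7.h202.CS

open Polynomial Run7.h241.CS

/-- a nonzero quadratic polynomial has finitely many zeros -/
lemma quad_finite (c0 c1 c2 : ℚ) (h : ¬ (c0 = 0 ∧ c1 = 0 ∧ c2 = 0)) :
    {u : ℚ | c0 + c1 * u + c2 * u ^ 2 = 0}.Finite := by
  have hp : (C c2 * X ^ 2 + C c1 * X + C c0 : ℚ[X]) ≠ 0 := by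
    intro h0
    apply h
    have e0 := congrArg (fun q => q.coeff 0) h0
    have e1 := congrArg (fun q => q.coeff 1) h0
    have e2 := congrArg (fun q => q.coeff 2) h0
    simp [coeff_X, coeff_C] at e0 e1 e2
    exact ⟨e0, e1, e2⟩
  refine (Polynomial.finite_setOf_isRoot hp).subset ?_
  intro u hu
  simp only [Set.mem_setOf_eq, IsRoot.def, eval_add, eval_mul, eval_C, eval_pow, eval_X] at hu ⊢
  linarith

/-- the square of the parameter `k` -/
noncomputable def KK (u : ℝ) : ℝ :=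
  (((2 + 6 * u + u ^ 2) * (1 - 4 * u - 3 * u ^ 2) * (3 + 2 * u - 2 * u ^ 2)) /
    (1 + u + u ^ 2) ^ 3) ^ 2

lemma KK_cont : Continuous KK := by
  unfold KK
  refine Continuous.pow (Continuous.div (by fun_prop) (by fun_prop) (fun u => ?_)) 2
  have : 0 < 1 + u + u ^ 2 := by nlinarith [sq_nonneg (u + 1 / 2)]
  positivity

lemma par7b (F G : Finset ℚ) (a b : ℚ) (ha : 9 ≤ a) (hab : a < b) (hb : b ≤ 36) :
    ∃ x y z : ℚ, 0 < y ∧ y < x ∧ x < z ∧ z = x + y ∧
      x ^ 2 + x * y + y ^ 2 = 7 ∧ 0 < x * y * z ∧ a < (x * y * z) ^ 2 ∧ (x * y * z) ^ 2 < b ∧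
      (x * y * z) ^ 2 ∉ G ∧
      (x ∉ F ∧ y ∉ F ∧ z ∉ F) ∧ (-x ∉ F ∧ -y ∉ F ∧ -z ∉ F) := by
  classical
  let F' : Finset ℚ := F ∪ F.image (fun x => -x)
  have hF' : ∀ x, x ∉ F' → x ∉ F ∧ -x ∉ F := by
    intro x hx
    rw [Finset.mem_union, not_or] at hx
    refine ⟨hx.1, fun h => hx.2 ?_⟩
    rw [Finset.mem_image]
    exact ⟨-x, h, neg_neg x⟩
  -- a smaller interval without elements of `G`
  obtain ⟨c, hc, hcG⟩ : ∃ c : ℚ, c ∈ Set.Ioo a b ∧ c ∉ G :=
    ((Set.Ioo_infinite hab).exists_notMem_finset G)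
  have hopen : IsOpen ((↑(G.image (fun g : ℚ => (g : ℝ))) : Set ℝ)ᶜ ∩ Set.Ioo (a : ℝ) (b : ℝ)) :=
    ((G.image (fun g : ℚ => (g : ℝ))).finite_toSet.isClosed.isOpen_compl).inter isOpen_Ioo
  have hcm : (c : ℝ) ∈ ((↑(G.image (fun g : ℚ => (g : ℝ))) : Set ℝ)ᶜ ∩ Set.Ioo (a : ℝ) (b : ℝ)) := by
    refine ⟨?_, by exact_mod_cast hc.1, by exact_mod_cast hc.2⟩
    simp only [Set.mem_compl_iff, Finset.mem_coe, Finset.mem_image, not_exists, not_and]
    intro g hg h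
    exact hcG (by rw [← (Rat.cast_injective (α := ℝ) h)]; exact hg)
  -- intermediate values
  have h0 : KK 0 = 36 := by unfold KK; norm_num
  have h8 : KK (1 / 8) < 9 := by unfold KK; norm_num
  have ha' : (9 : ℝ) ≤ a := by exact_mod_cast ha
  have hb' : (b : ℝ) ≤ 36 := by exact_mod_cast hb
  have hc1 : (a : ℝ) < c := by exact_mod_cast hc.1
  have hc2 : (c : ℝ) < b := by exact_mod_cast hc.2
  obtain ⟨u0, hu0, hKu⟩ : (c : ℝ) ∈ KK '' Set.Ioo (0 : ℝ) (1 / 8) := by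
    apply intermediate_value_Ioo' (by norm_num) KK_cont.continuousOn
    rw [h0]
    exact ⟨by linarith, by linarith⟩
  have hO : IsOpen (KK ⁻¹' ((↑(G.image (fun g : ℚ => (g : ℝ))) : Set ℝ)ᶜ ∩
      Set.Ioo (a : ℝ) (b : ℝ)) ∩ Set.Ioo (0 : ℝ) (1 / 8)) :=
    (hopen.preimage KK_cont).inter isOpen_Ioo
  have hu0' : u0 ∈ (KK ⁻¹' ((↑(G.image (fun g : ℚ => (g : ℝ))) : Set ℝ)ᶜ ∩
      Set.Ioo (a : ℝ) (b : ℝ)) ∩ Set.Ioo (0 : ℝ) (1 / 8)) := by
    refine ⟨?_, hu0⟩
    rw [Set.mem_preimage, hKu]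
    exact hcm
  obtain ⟨ε, hε, hball⟩ := Metric.isOpen_iff.mp hO u0 hu0'
  obtain ⟨α, hα1, hα2⟩ := exists_rat_btwn (show u0 - ε < u0 by linarith)
  obtain ⟨β, hβ1, hβ2⟩ := exists_rat_btwn (show u0 < u0 + ε by linarith)
  have hαβ : α < β := by
    have : (α : ℝ) < β := hα2.trans hβ1
    exact_mod_cast this
  -- the bad parameters
  have hbad : (⋃ s ∈ F', ({u : ℚ | (2 - s) + (6 - s) * u + (1 - s) * u ^ 2 = 0} ∪
      {u : ℚ | (1 - s) + (-4 - s) * u + (-3 - s) * u ^ 2 = 0} ∪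
      {u : ℚ | (3 - s) + (2 - s) * u + (-2 - s) * u ^ 2 = 0})).Finite := by
    refine Set.Finite.biUnion F'.finite_toSet (fun s _ => ?_)
    refine ((quad_finite _ _ _ ?_).union (quad_finite _ _ _ ?_)).union (quad_finite _ _ _ ?_)
    · rintro ⟨e1, e2, -⟩; linarith
    · rintro ⟨e1, e2, -⟩; linarith
    · rintro ⟨e1, e2, -⟩; linarith
  obtain ⟨u, ⟨hu, hgood⟩⟩ := ((Set.Ioo_infinite hαβ).diff hbad).nonempty
  have huB : (u : ℝ) ∈ Metric.ball u0 ε := by
    rw [Metric.mem_ball, Real.dist_eq, abs_lt]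
    have e1 : (α : ℝ) < u := by exact_mod_cast hu.1
    have e2 : (u : ℝ) < β := by exact_mod_cast hu.2
    constructor <;> linarith
  obtain ⟨⟨hG, hIa, hIb⟩, hu1, hu2⟩ := hball huB
  have h1 : 0 < u := by exact_mod_cast hu1
  have h2 : u < 1 / 8 := by
    have : (u : ℝ) < ((1 / 8 : ℚ) : ℝ) := by push_cast; exact hu2
    exact_mod_cast this
  have hD : 0 < 1 + u + u ^ 2 := by positivity
  have hy0 : 0 < 1 - 4 * u - 3 * u ^ 2 := by nlinarith
  have hz0 : 0 < 3 + 2 * u - 2 * u ^ 2 := by nlinarith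
  simp only [Set.mem_iUnion, Set.mem_union, Set.mem_setOf_eq, not_exists, not_or] at hgood
  have h3 : (2 + 6 * u + u ^ 2) / (1 + u + u ^ 2) ∉ F' := by
    intro hm
    refine (hgood _ hm).1.1 ?_
    field_simp
    ring
  have h4 : (1 - 4 * u - 3 * u ^ 2) / (1 + u + u ^ 2) ∉ F' := by
    intro hm
    refine (hgood _ hm).1.2 ?_
    field_simp
    ring
  have h5 : (3 + 2 * u - 2 * u ^ 2) / (1 + u + u ^ 2) ∉ F' := by
    intro hm
    refine (hgood _ hm).2 ?_
    field_simp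
    ring
  have hK : KK u = ((((2 + 6 * u + u ^ 2) / (1 + u + u ^ 2) *
      ((1 - 4 * u - 3 * u ^ 2) / (1 + u + u ^ 2)) *
      ((3 + 2 * u - 2 * u ^ 2) / (1 + u + u ^ 2))) ^ 2 : ℚ) : ℝ) := by
    unfold KK
    push_cast
    have hD' : (1 + (u : ℝ) + (u : ℝ) ^ 2) ≠ 0 := by
      have : (0 : ℝ) < 1 + (u : ℝ) + (u : ℝ) ^ 2 := by exact_mod_cast hD
      exact this.ne'
    field_simp
  rw [hK] at hG hIa hIb
  have hsum : (3 + 2 * u - 2 * u ^ 2) / (1 + u + u ^ 2) =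
      (2 + 6 * u + u ^ 2) / (1 + u + u ^ 2) + (1 - 4 * u - 3 * u ^ 2) / (1 + u + u ^ 2) := by
    rw [← add_div]
    congr 1
    ring
  have hy1 : 0 < (1 - 4 * u - 3 * u ^ 2) / (1 + u + u ^ 2) := by positivity
  refine ⟨(2 + 6 * u + u ^ 2) / (1 + u + u ^ 2), (1 - 4 * u - 3 * u ^ 2) / (1 + u + u ^ 2),
    (3 + 2 * u - 2 * u ^ 2) / (1 + u + u ^ 2), hy1, ?_, ?_, hsum, ?_, ?_, ?_, ?_, ?_,
    ⟨(hF' _ h3).1, (hF' _ h4).1, (hF' _ h5).1⟩, (hF' _ h3).2, (hF' _ h4).2, (hF' _ h5).2⟩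
  · apply div_lt_div_of_pos_right _ hD
    nlinarith
  · rw [hsum]
    linarith
  · field_simp
    ring
  · positivity
  · exact_mod_cast hIa
  · exact_mod_cast hIb
  · intro hm
    apply hG
    simp only [Finset.mem_coe, Finset.mem_image]
    exact ⟨_, hm, rfl⟩

/-- **RAT** -/
theorem t_RAT : S_RAT := by
  classical
  intro F G a b ha hab hb
  obtain ⟨x, y, z, h1, h2, h3, h4, h5, h6, h7, h7', h8, ⟨a1, a2, a3⟩, ⟨b1, b2, b3⟩⟩ :=
    par7b F G a b ha hab hb
  have hx : 0 < x := h1.trans h2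
  have hz : 0 < z := hx.trans h3
  have n1 : x ∉ ({-x, y, -y, z, -z} : Finset ℚ) := by
    simp only [Finset.mem_insert, Finset.mem_singleton, not_or]
    refine ⟨?_, ?_, ?_, ?_, ?_⟩ <;> intro h <;> linarith
  have n2 : -x ∉ ({y, -y, z, -z} : Finset ℚ) := by
    simp only [Finset.mem_insert, Finset.mem_singleton, not_or]
    refine ⟨?_, ?_, ?_, ?_⟩ <;> intro h <;> linarith
  have n3 : y ∉ ({-y, z, -z} : Finset ℚ) := by
    simp only [Finset.mem_insert, Finset.mem_singleton, not_or]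
    refine ⟨?_, ?_, ?_⟩ <;> intro h <;> linarith
  have n4 : -y ∉ ({z, -z} : Finset ℚ) := by
    simp only [Finset.mem_insert, Finset.mem_singleton, not_or]
    refine ⟨?_, ?_⟩ <;> intro h <;> linarith
  have n5 : z ∉ ({-z} : Finset ℚ) := by
    simp only [Finset.mem_singleton]
    intro h
    linarith
  refine ⟨{x, -x, y, -y, z, -z}, x * y * z, ?_, ?_, h6, h7, h7', h8, ?_⟩
  · rw [Finset.card_insert_of_notMem n1, Finset.card_insert_of_notMem n2,
      Finset.card_insert_of_notMem n3, Finset.card_insert_of_notMem n4,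
      Finset.card_insert_of_notMem n5, Finset.card_singleton]
  · rw [Finset.disjoint_right]
    intro w hw
    simp only [Finset.mem_insert, Finset.mem_singleton] at hw
    rcases hw with rfl | rfl | rfl | rfl | rfl | rfl
    · exact a1
    · exact b1
    · exact a2
    · exact b2
    · exact a3
    · exact b3
  · rw [Finset.prod_insert n1, Finset.prod_insert n2, Finset.prod_insert n3,
      Finset.prod_insert n4, Finset.prod_insert n5, Finset.prod_singleton]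
    subst h4
    have h9 := congrArg (C : ℚ → ℚ[X]) h5
    simp only [map_add, map_mul, map_pow, map_neg] at h9 ⊢
    have e1 : (X - C x) * (X - C y) * (X - -(C x + C y)) =
        (X ^ 3 - C 7 * X) + C x * C y * (C x + C y) := by
      linear_combination -(X : ℚ[X]) * h9
    have e2 : (X - -C x) * (X - -C y) * (X - (C x + C y)) =
        (X ^ 3 - C 7 * X) - C x * C y * (C x + C y) := by
      linear_combination -(X : ℚ[X]) * h9
    calc _ = ((X - C x) * (X - C y) * (X - -(C x + C y))) *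
        ((X - -C x) * (X - -C y) * (X - (C x + C y))) := by ring
      _ = _ := by rw [e1, e2]; ring

end Run7.h202.CS
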